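import Mathlib

/-!
Q1 of MP_135240_an has a negative answer.

The space is Cantor space `ℕ → Bool` with its usual ultrametric `(1/2)^(first difference)` and the
fair coin measure `P`; its coordinates are arranged in rows through `Nat.pair`, and `T` is the row
shift (a Bernoulli shift).  The function `f` depends on row `0` only; it is integrable, but its
martingale maximal function along the coordinates of the row is not.  For `k = n + 1` and the ball
which reveals exactly the first `m` bits of row `n`, one gets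
`U_{r,k} f ≥ (1/(n+1)) E[f(row n) | first m bits]`, and the second Borel-Cantelli lemma shows that
this is unbounded along `r → 0`, `k → ∞` for almost every point.
-/

open MeasureTheory Filter Topology Set ENNReal

namespace Pool.Agent.Results.MP_135240_an.JointLimitFails

/-! ### The notions of the problem -/

/-- The centred Hardy–Littlewood maximal function
`H^* f (x) = sup_{r > 0} (1 / μ(B(x,r))) ∫_{B(x,r)} |f| dμ`, as an extended nonnegative real. -/
noncomputable def maximalFn {X : Type*} [PseudoMetricSpace X] [MeasurableSpace X]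
    (μ : Measure X) (f : X → ℝ) (x : X) : ℝ≥0∞ :=
  ⨆ (r : ℝ) (_ : 0 < r), (∫⁻ y in Metric.ball x r, ‖f y‖ₑ ∂μ) / μ (Metric.ball x r)

/-- The Hardy–Littlewood property of `μ`: the centred maximal operator is of weak type (1,1). -/
def HardyLittlewood {X : Type*} [PseudoMetricSpace X] [MeasurableSpace X]
    (μ : Measure X) : Prop :=
  ∃ C : ℝ, 1 ≤ C ∧ ∀ f : X → ℝ, Integrable f μ → ∀ ε : ℝ, 0 < ε →
    μ {x | ENNReal.ofReal ε ≤ maximalFn μ f x} ≤ ENNReal.ofReal (C * (∫ x, |f x| ∂μ) / ε)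

/-- The averages `U_{r,k} f (x) = (1 / μ(B(x,r))) ∫_{B(x,r)} A_k f dμ`, where
`A_k f = (1/k) ∑_{j < k} f ∘ T^j`. -/
noncomputable def U {X : Type*} [PseudoMetricSpace X] [MeasurableSpace X]
    (μ : Measure X) (T : X → X) (f : X → ℝ) (r : ℝ) (k : ℕ) (x : X) : ℝ :=
  (μ.real (Metric.ball x r))⁻¹ *
    ∫ y in Metric.ball x r, (k : ℝ)⁻¹ * ∑ j ∈ Finset.range k, f (T^[j] y) ∂μ

/-- `lim_{r ↘ 0, k → ∞} u r k = L` as a joint limit. -/
def JointLimit (u : ℝ → ℕ → ℝ) (L : ℝ) : Prop :=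
  ∀ ε : ℝ, 0 < ε → ∃ r₀ : ℝ, 0 < r₀ ∧ ∃ K : ℕ, ∀ r : ℝ, 0 < r → r < r₀ →
    ∀ k : ℕ, K ≤ k → |u r k - L| < ε

/-! ### The space: Cantor space with the fair coin measure -/

/-- fair coin -/
noncomputable def coin : Measure Bool := (2 : ℝ≥0∞)⁻¹ • (Measure.dirac true) + (2 : ℝ≥0∞)⁻¹ • (Measure.dirac false)

instance : IsProbabilityMeasure coin := by
  constructor
  simp [coin]
  exact ENNReal.inv_two_add_inv_two

lemma coin_singleton (b : Bool) : coin {b} = 2⁻¹ := by
  cases b <;> simp [coin]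

/-- fair-coin measure on Cantor space -/
noncomputable def P : Measure (ℕ → Bool) := Measure.infinitePi (fun _ => coin)

instance : IsProbabilityMeasure P := by unfold P; infer_instance

/-- the set of points prescribed on a finset `s` by `x` -/
def cyl (s : Finset ℕ) (x : ℕ → Bool) : Set (ℕ → Bool) := {y | ∀ i ∈ s, y i = x i}

lemma cyl_eq_pi (s : Finset ℕ) (x : ℕ → Bool) : cyl s x = Set.pi s (fun i => {x i}) := by
  ext y; simp [cyl, Set.mem_pi]

lemma measurableSet_cyl (s : Finset ℕ) (x : ℕ → Bool) : MeasurableSet (cyl s x) := by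
  rw [cyl_eq_pi]
  exact MeasurableSet.pi (Finset.countable_toSet s) (fun i _ => measurableSet_singleton _)

lemma P_cyl (s : Finset ℕ) (x : ℕ → Bool) : P (cyl s x) = 2⁻¹ ^ s.card := by
  rw [cyl_eq_pi, P, Measure.infinitePi_pi]
  · simp [coin_singleton]
  · intro i _; exact measurableSet_singleton _

/-- pull back along an injection preserves the measure -/
lemma measurePreserving_comp (σ : ℕ → ℕ) (hσ : Function.Injective σ) :
    MeasurePreserving (fun (x : ℕ → Bool) => fun i => x (σ i)) P P := by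
  have hm : Measurable (fun (x : ℕ → Bool) => fun i => x (σ i)) := by fun_prop
  refine ⟨hm, ?_⟩
  obtain ⟨τ, hτ⟩ : ∃ τ : ℕ → ℕ, ∀ a, τ (σ a) = a := hσ.hasLeftInverse
  have key : ∀ (s : Finset ℕ) (t : ℕ → Set Bool), (∀ i, MeasurableSet (t i)) →
      Measure.map (fun (x : ℕ → Bool) => fun i => x (σ i)) P (Set.pi s t) = ∏ i ∈ s, coin (t i) := by
    intro s t ht
    rw [Measure.map_apply hm (MeasurableSet.pi (Finset.countable_toSet s) (fun i _ => ht i))]
    have : (fun (x : ℕ → Bool) => fun i => x (σ i)) ⁻¹' (Set.pi s t)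
        = Set.pi (s.map ⟨σ, hσ⟩) (fun j => t (τ j)) := by
      ext y
      simp [Set.mem_pi, hτ]
    rw [this, P, Measure.infinitePi_pi _ (fun i _ => ht _)]
    simp [hτ]
  exact Measure.eq_infinitePi _ key

/-! ### metric -/

attribute [local instance] PiNat.metricSpace

lemma mem_cyl_range {N : ℕ} {x y : ℕ → Bool} :
    y ∈ cyl (Finset.range N) x ↔ y ∈ PiNat.cylinder x N := by
  simp [cyl, PiNat.cylinder]

lemma exists_ball_eq (x : ℕ → Bool) {r : ℝ} (hr : 0 < r) :
    ∃ N, Metric.ball x r = cyl (Finset.range N) x := by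
  classical
  have hex : ∃ n : ℕ, (1/2 : ℝ) ^ n < r := exists_pow_lt_of_lt_one hr (by norm_num)
  refine ⟨Nat.find hex, ?_⟩
  ext y
  rw [mem_cyl_range, Metric.mem_ball]
  constructor
  · intro h
    by_cases hxy : y = x
    · subst hxy; exact PiNat.self_mem_cylinder _ _
    · rw [PiNat.mem_cylinder_iff_le_firstDiff hxy]
      apply Nat.find_min'
      rwa [PiNat.dist_eq_of_ne hxy] at h
  · intro h
    exact lt_of_le_of_lt (PiNat.mem_cylinder_iff_dist_le.1 h) (Nat.find_spec hex)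

lemma ball_eq (x : ℕ → Bool) (N : ℕ) :
    Metric.ball x (2 * (1/2 : ℝ) ^ N) = cyl (Finset.range N) x := by
  ext y
  rw [mem_cyl_range, Metric.mem_ball]
  constructor
  · intro h
    by_cases hxy : y = x
    · subst hxy; exact PiNat.self_mem_cylinder _ _
    · rw [PiNat.mem_cylinder_iff_le_firstDiff hxy]
      rw [PiNat.dist_eq_of_ne hxy] at h
      by_contra hlt
      push Not at hlt
      have h1 : (1/2 : ℝ) ^ N ≤ (1/2 : ℝ) ^ (PiNat.firstDiff y x + 1) :=
        pow_le_pow_of_le_one (by norm_num) (by norm_num) hlt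
      rw [pow_succ] at h1
      linarith
  · intro h
    have := PiNat.mem_cylinder_iff_dist_le.1 h
    have hp : (0:ℝ) < (1/2 : ℝ) ^ N := by positivity
    linarith

/-! ### weak type (1,1) -/

/-- flip the n-th bit -/
def flip (x : ℕ → Bool) (n : ℕ) : ℕ → Bool := Function.update x n (!(x n))

lemma cyl_self (s : Finset ℕ) (x : ℕ → Bool) : x ∈ cyl s x := fun _ _ => rfl

lemma cyl_eq_of_mem {s : Finset ℕ} {x y : ℕ → Bool} (h : y ∈ cyl s x) : cyl s y = cyl s x := by
  ext z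
  constructor
  · intro hz i hi; rw [hz i hi, h i hi]
  · intro hz i hi; rw [hz i hi, h i hi]

lemma cyl_succ (x : ℕ → Bool) (n : ℕ) :
    cyl (Finset.range n) x = cyl (Finset.range (n+1)) x ∪ cyl (Finset.range (n+1)) (flip x n) := by
  ext y
  simp only [cyl, Set.mem_union, Set.mem_ofPred_eq, Finset.mem_range]
  constructor
  · intro h
    by_cases hn : y n = x n
    · left
      intro i hi
      rcases Nat.lt_succ_iff_lt_or_eq.1 hi with h' | h'
      · exact h i h'
      · subst h'; exact hn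
    · right
      intro i hi
      rcases Nat.lt_succ_iff_lt_or_eq.1 hi with h' | h'
      · rw [h i h', flip, Function.update_of_ne (by omega)]
      · subst h'
        simp only [flip, Function.update_self]
        cases hy : y i <;> cases hx : x i <;> simp_all
  · rintro (h | h) i hi
    · exact h i (by omega)
    · rw [h i (by omega), flip, Function.update_of_ne (by omega)]

lemma cyl_disj (x : ℕ → Bool) (n : ℕ) :
    Disjoint (cyl (Finset.range (n+1)) x) (cyl (Finset.range (n+1)) (flip x n)) := by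
  rw [Set.disjoint_left]
  intro y h1 h2
  have a := h1 n (by simp)
  have b := h2 n (by simp)
  rw [a] at b
  simp [flip] at b

lemma max_ineq_aux (g : (ℕ → Bool) → ℝ≥0∞) (δ : ℝ≥0∞) (d : ℕ) : ∀ (n : ℕ) (x : ℕ → Bool),
    δ * P ({y | ∃ m, n ≤ m ∧ m ≤ n + d ∧ δ * 2⁻¹ ^ m ≤ ∫⁻ z in cyl (Finset.range m) y, g z ∂P} ∩
      cyl (Finset.range n) x) ≤ ∫⁻ z in cyl (Finset.range n) x, g z ∂P := by
  induction d with
  | zero =>
    intro n x
    by_cases hx : δ * 2⁻¹ ^ n ≤ ∫⁻ z in cyl (Finset.range n) x, g z ∂P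
    · calc _ ≤ δ * P (cyl (Finset.range n) x) := by gcongr; exact Set.inter_subset_right
        _ = δ * 2⁻¹ ^ n := by rw [P_cyl]; simp
        _ ≤ _ := hx
    · have : ({y | ∃ m, n ≤ m ∧ m ≤ n + 0 ∧ δ * 2⁻¹ ^ m ≤ ∫⁻ z in cyl (Finset.range m) y, g z ∂P} ∩
      cyl (Finset.range n) x) = ∅ := by
        ext y
        simp only [Set.mem_inter_iff, Set.mem_ofPred_eq, Set.mem_empty_iff_false, iff_false, not_and]
        rintro ⟨m, h1, h2, h3⟩ hy
        have : m = n := by omega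
        subst this
        rw [cyl_eq_of_mem hy] at h3
        exact hx h3
      rw [this]; simp
  | succ d ih =>
    intro n x
    by_cases hx : δ * 2⁻¹ ^ n ≤ ∫⁻ z in cyl (Finset.range n) x, g z ∂P
    · calc _ ≤ δ * P (cyl (Finset.range n) x) := by gcongr; exact Set.inter_subset_right
        _ = δ * 2⁻¹ ^ n := by rw [P_cyl]; simp
        _ ≤ _ := hx
    · have hsub : ({y | ∃ m, n ≤ m ∧ m ≤ n + (d+1) ∧ δ * 2⁻¹ ^ m ≤ ∫⁻ z in cyl (Finset.range m) y, g z ∂P} ∩
          cyl (Finset.range n) x) ⊆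
          ({y | ∃ m, (n+1) ≤ m ∧ m ≤ (n + 1) + d ∧ δ * 2⁻¹ ^ m ≤ ∫⁻ z in cyl (Finset.range m) y, g z ∂P} ∩
          cyl (Finset.range (n+1)) x) ∪
          ({y | ∃ m, (n+1) ≤ m ∧ m ≤ (n + 1) + d ∧ δ * 2⁻¹ ^ m ≤ ∫⁻ z in cyl (Finset.range m) y, g z ∂P} ∩
          cyl (Finset.range (n+1)) (flip x n)) := by
        rintro y ⟨⟨m, h1, h2, h3⟩, hy⟩
        have hm : m ≠ n := by
          rintro rfl
          rw [cyl_eq_of_mem hy] at h3
          exact hx h3
        rw [← Set.inter_union_distrib_left, ← cyl_succ]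
        exact ⟨⟨m, by omega, by omega, h3⟩, hy⟩
      calc _ ≤ δ * P (_ ∪ _) := mul_le_mul_right (measure_mono hsub) _
        _ ≤ δ * (P _ + P _) := by gcongr; exact measure_union_le _ _
        _ = δ * P _ + δ * P _ := by rw [mul_add]
        _ ≤ ∫⁻ z in cyl (Finset.range (n+1)) x, g z ∂P +
            ∫⁻ z in cyl (Finset.range (n+1)) (flip x n), g z ∂P := add_le_add (ih _ _) (ih _ _)
        _ = ∫⁻ z in cyl (Finset.range n) x, g z ∂P := by
            rw [cyl_succ x n, lintegral_union (measurableSet_cyl _ _) (cyl_disj _ _)]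

lemma max_ineq (g : (ℕ → Bool) → ℝ≥0∞) (δ : ℝ≥0∞) :
    δ * P {y | ∃ m, δ * 2⁻¹ ^ m ≤ ∫⁻ z in cyl (Finset.range m) y, g z ∂P} ≤ ∫⁻ z, g z ∂P := by
  have h1 : {y | ∃ m, δ * 2⁻¹ ^ m ≤ ∫⁻ z in cyl (Finset.range m) y, g z ∂P} =
      ⋃ N : ℕ, {y | ∃ m, 0 ≤ m ∧ m ≤ 0 + N ∧ δ * 2⁻¹ ^ m ≤ ∫⁻ z in cyl (Finset.range m) y, g z ∂P} := by
    ext y
    simp only [Set.mem_ofPred_eq, Set.mem_iUnion]
    constructor
    · rintro ⟨m, hm⟩; exact ⟨m, m, by omega, by omega, hm⟩
    · rintro ⟨N, m, _, _, hm⟩; exact ⟨m, hm⟩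
  rw [h1]
  have hmono : Monotone (fun N : ℕ => {y | ∃ m, 0 ≤ m ∧ m ≤ 0 + N ∧ δ * 2⁻¹ ^ m ≤ ∫⁻ z in cyl (Finset.range m) y, g z ∂P}) := by
    intro a b hab y
    rintro ⟨m, h1, h2, h3⟩
    exact ⟨m, h1, by omega, h3⟩
  rw [hmono.measure_iUnion, ENNReal.mul_iSup]
  apply iSup_le
  intro N
  have := max_ineq_aux g δ N 0 (fun _ => true)
  simpa [cyl] using this

lemma hardyLittlewood_P : HardyLittlewood P := by
  refine ⟨1, le_refl _, ?_⟩
  intro f hf ε hε
  have key : ∀ δ : ℝ, 0 < δ → δ < ε → ENNReal.ofReal δ * P {x | ENNReal.ofReal ε ≤ maximalFn P f x} ≤ ∫⁻ z, ‖f z‖ₑ ∂P := by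
    intro δ hδ hδε
    refine le_trans ?_ (max_ineq (fun z => ‖f z‖ₑ) (ENNReal.ofReal δ))
    refine mul_le_mul_right (measure_mono ?_) _
    intro x hx
    simp only [Set.mem_ofPred_eq] at hx ⊢
    have hlt : ENNReal.ofReal δ < maximalFn P f x :=
      lt_of_lt_of_le ((ENNReal.ofReal_lt_ofReal_iff hε).2 hδε) hx
    unfold maximalFn at hlt
    rw [lt_iSup_iff] at hlt
    obtain ⟨r, hr⟩ := hlt
    rw [lt_iSup_iff] at hr
    obtain ⟨hr0, hr⟩ := hr
    obtain ⟨N, hN⟩ := exists_ball_eq x hr0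
    refine ⟨N, ?_⟩
    rw [hN, P_cyl, Finset.card_range] at hr
    have h0 : (2⁻¹ : ℝ≥0∞) ^ N ≠ 0 := by
      apply pow_ne_zero; simp
    have ht : (2⁻¹ : ℝ≥0∞) ^ N ≠ ⊤ := by
      apply ENNReal.pow_ne_top; simp
    rw [ENNReal.lt_div_iff_mul_lt (Or.inl h0) (Or.inl ht)] at hr
    exact hr.le
  set m := P {x | ENNReal.ofReal ε ≤ maximalFn P f x} with hm
  have hmtop : m ≠ ⊤ := measure_ne_top _ _
  have hI : ∫⁻ z, ‖f z‖ₑ ∂P = ENNReal.ofReal (∫ x, |f x| ∂P) := by
    have := ofReal_integral_norm_eq_lintegral_enorm hf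
    simpa [Real.norm_eq_abs] using this.symm
  rw [hI] at key
  have hnn : 0 ≤ ∫ x, |f x| ∂P := integral_nonneg (fun _ => abs_nonneg _)
  have key2 : ∀ δ : ℝ, 0 < δ → δ < ε → δ * m.toReal ≤ ∫ x, |f x| ∂P := by
    intro δ hδ hδε
    have := key δ hδ hδε
    rw [← ENNReal.ofReal_toReal hmtop, ← ENNReal.ofReal_mul hδ.le] at this
    exact (ENNReal.ofReal_le_ofReal_iff hnn).1 this
  have key3 : ε * m.toReal ≤ ∫ x, |f x| ∂P := by
    have hc : Tendsto (fun δ : ℝ => δ * m.toReal) (𝓝[<] ε) (𝓝 (ε * m.toReal)) := by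
      apply Tendsto.mono_left _ nhdsWithin_le_nhds
      exact (continuous_id.mul continuous_const).tendsto ε
    apply le_of_tendsto hc
    have : ∀ᶠ δ in 𝓝[<] ε, 0 < δ := by
      apply Filter.Eventually.filter_mono nhdsWithin_le_nhds
      exact lt_mem_nhds hε
    filter_upwards [this, self_mem_nhdsWithin] with δ h1 h2
    exact key2 δ h1 h2
  rw [← ENNReal.ofReal_toReal hmtop]
  apply ENNReal.ofReal_le_ofReal
  rw [one_mul, le_div_iff₀ hε]
  linarith

/-! ### the map and the function -/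

/-- the index map of the row shift -/
def sig (i : ℕ) : ℕ := Nat.pair ((Nat.unpair i).1 + 1) (Nat.unpair i).2

lemma sig_pair (a b : ℕ) : sig (Nat.pair a b) = Nat.pair (a+1) b := by
  simp [sig]

lemma sig_inj : Function.Injective sig := by
  intro i j h
  rw [← Nat.pair_unpair i, ← Nat.pair_unpair j]
  have := congrArg Nat.unpair h
  simp only [sig, Nat.unpair_pair, Prod.mk.injEq] at this
  have h1 : (Nat.unpair i).1 = (Nat.unpair j).1 := by omega
  rw [h1, this.2]

/-- the row shift -/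
def T (x : ℕ → Bool) : ℕ → Bool := fun i => x (sig i)

lemma T_iter (n : ℕ) (x : ℕ → Bool) (a b : ℕ) : T^[n] x (Nat.pair a b) = x (Nat.pair (a + n) b) := by
  induction n generalizing x a with
  | zero => simp
  | succ n ih =>
    rw [Function.iterate_succ_apply, ih, T, sig_pair]
    congr 2

lemma mp_T : MeasurePreserving T P P := measurePreserving_comp sig sig_inj

/-- first `m` indices of row `n` -/
def S (n m : ℕ) : Finset ℕ := (Finset.range m).image (fun i => Nat.pair n i)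

lemma pair_inj (n : ℕ) : Function.Injective (fun i => Nat.pair n i) := by
  intro i j h
  have := congrArg Nat.unpair h
  simpa using this

lemma card_S (n m : ℕ) : (S n m).card = m := by
  rw [S, Finset.card_image_of_injective _ (pair_inj n), Finset.card_range]

/-- the first `m` bits of row `n` are all true -/
def A (n m : ℕ) : Set (ℕ → Bool) := cyl (S n m) (fun _ => true)

lemma mem_A {n m : ℕ} {x : ℕ → Bool} : x ∈ A n m ↔ ∀ i < m, x (Nat.pair n i) = true := by
  simp [A, cyl, S]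

lemma meas_A (n m : ℕ) : MeasurableSet (A n m) := measurableSet_cyl _ _

lemma P_A (n m : ℕ) : P (A n m) = 2⁻¹ ^ m := by rw [A, P_cyl, card_S]

/-- value of the j-th term -/
noncomputable def w (j : ℕ) : ℝ≥0∞ := 2 ^ (2 ^ j) * 2⁻¹ ^ j

noncomputable def F (x : ℕ → Bool) : ℝ≥0∞ := ∑' j : ℕ, (A 0 (2 ^ j)).indicator (fun _ => w j) x

lemma meas_F : Measurable F := by
  unfold F
  apply Measurable.tsum
  intro j
  exact measurable_const.indicator (meas_A _ _)

lemma two_pow_mul_inv (n : ℕ) : (2 : ℝ≥0∞) ^ n * 2⁻¹ ^ n = 1 := by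
  rw [← mul_pow, ENNReal.mul_inv_cancel (by norm_num) (by norm_num), one_pow]

lemma lint_F : ∫⁻ x, F x ∂P = 2 := by
  unfold F
  rw [lintegral_tsum (fun j => (measurable_const.indicator (meas_A _ _)).aemeasurable)]
  have : ∀ j : ℕ, ∫⁻ x, (A 0 (2 ^ j)).indicator (fun _ => w j) x ∂P = 2⁻¹ ^ j := by
    intro j
    rw [lintegral_indicator_const (meas_A _ _), P_A, w, mul_right_comm, two_pow_mul_inv, one_mul]
  simp_rw [this]
  rw [ENNReal.tsum_geometric]
  rw [ENNReal.one_sub_inv_two, inv_inv]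

noncomputable def f (x : ℕ → Bool) : ℝ := (F x).toReal

lemma int_f : Integrable f P := by
  unfold f
  apply integrable_toReal_of_lintegral_ne_top meas_F.aemeasurable
  rw [lint_F]; norm_num

lemma F_lt_top : ∀ᵐ x ∂P, F x < ⊤ := by
  apply ae_lt_top meas_F
  rw [lint_F]; norm_num

lemma f_ge {x : ℕ → Bool} (hx : F x < ⊤) (j : ℕ) :
    (A 0 (2 ^ j)).indicator (fun _ => (2:ℝ) ^ (2 ^ j) * (1/2) ^ j) x ≤ f x := by
  have h1 : (A 0 (2 ^ j)).indicator (fun _ => w j) x ≤ F x := ENNReal.le_tsum j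
  have h2 := ENNReal.toReal_mono hx.ne h1
  refine le_trans (le_of_eq ?_) h2
  by_cases hA : x ∈ A 0 (2 ^ j)
  · simp [hA, w]
  · simp [hA]

lemma T_iter_mem (n m : ℕ) (x : ℕ → Bool) : T^[n] x ∈ A 0 m ↔ x ∈ A n m := by
  simp [mem_A, T_iter]

lemma lower_measure (n m j : ℕ) (hmj : m ≤ 2 ^ j) (x : ℕ → Bool) (hx : x ∈ A n m) :
    (1/2 : ℝ) ^ (Nat.pair n m + (2 ^ j - m)) ≤
      P.real (A n (2 ^ j) ∩ cyl (Finset.range (Nat.pair n m)) x) := by
  classical
  set N := Nat.pair n m with hN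
  set x' : ℕ → Bool := fun i => if i < N then x i else true with hx'
  have hsub : cyl (Finset.range N ∪ S n (2 ^ j)) x' ⊆ A n (2 ^ j) ∩ cyl (Finset.range N) x := by
    intro y hy
    constructor
    · rw [mem_A]
      intro i hi
      have h1 := hy (Nat.pair n i) (by
        rw [Finset.mem_union]; right
        rw [S, Finset.mem_image]
        exact ⟨i, Finset.mem_range.2 hi, rfl⟩)
      rw [h1, hx']
      simp only
      split_ifs with hlt
      · have : i < m := by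
          by_contra hge
          push Not at hge
          rcases Nat.eq_or_lt_of_le hge with h | h
          · subst h; omega
          · have := Nat.pair_lt_pair_right n h
            omega
        exact mem_A.1 hx i this
      · rfl
    · intro i hi
      have h1 := hy i (by rw [Finset.mem_union]; left; exact hi)
      rw [h1, hx']
      simp only
      rw [if_pos (Finset.mem_range.1 hi)]
  have hcard : (Finset.range N ∪ S n (2 ^ j)).card ≤ N + (2 ^ j - m) := by
    have hsubS : S n m ⊆ Finset.range N := by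
      intro i hi
      rw [S, Finset.mem_image] at hi
      obtain ⟨a, ha, rfl⟩ := hi
      rw [Finset.mem_range] at ha ⊢
      exact Nat.pair_lt_pair_right n ha
    have hsubS2 : S n m ⊆ S n (2 ^ j) := by
      apply Finset.image_subset_image
      exact Finset.range_subset_range.2 hmj
    have heq : Finset.range N ∪ S n (2 ^ j) = Finset.range N ∪ (S n (2 ^ j) \ S n m) := by
      ext i
      simp only [Finset.mem_union, Finset.mem_sdiff]
      constructor
      · rintro (h | h)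
        · left; exact h
        · by_cases h' : i ∈ S n m
          · left; exact hsubS h'
          · right; exact ⟨h, h'⟩
      · rintro (h | h)
        · left; exact h
        · right; exact h.1
    rw [heq]
    refine le_trans (Finset.card_union_le _ _) ?_
    rw [Finset.card_range, Finset.card_sdiff_of_subset hsubS2, card_S, card_S]
  have h2 : P.real (cyl (Finset.range N ∪ S n (2 ^ j)) x') = (1/2) ^ (Finset.range N ∪ S n (2 ^ j)).card := by
    rw [Measure.real, P_cyl]; simp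
  calc (1/2 : ℝ) ^ (N + (2 ^ j - m)) ≤ (1/2) ^ (Finset.range N ∪ S n (2 ^ j)).card :=
        pow_le_pow_of_le_one (by norm_num) (by norm_num) hcard
    _ = P.real (cyl (Finset.range N ∪ S n (2 ^ j)) x') := h2.symm
    _ ≤ _ := measureReal_mono hsub

lemma U_ge (n m j : ℕ) (hmj : m ≤ 2 ^ j) (x : ℕ → Bool) (hx : x ∈ A n m) :
    (2:ℝ) ^ m / 2 ^ j / (n + 1) ≤ U P T f (2 * (1/2) ^ (Nat.pair n m)) (n + 1) x := by
  set N := Nat.pair n m with hN
  rw [U, ball_eq]
  set C := cyl (Finset.range N) x with hC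
  have hPC : P.real C = (1/2) ^ N := by
    rw [Measure.real, P_cyl]; simp
  have hint : ∀ i, Integrable (fun y => f (T^[i] y)) P := fun i =>
    (mp_T.iterate i).integrable_comp_of_integrable int_f
  have hint2 : IntegrableOn (fun y => ((n + 1 : ℕ) : ℝ)⁻¹ * ∑ i ∈ Finset.range (n+1), f (T^[i] y)) C P := by
    apply Integrable.integrableOn
    apply Integrable.const_mul
    exact integrable_finsetSum _ (fun i _ => hint i)
  have hint3 : IntegrableOn (fun y => ((n + 1 : ℕ) : ℝ)⁻¹ *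
      (A n (2 ^ j)).indicator (fun _ => (2:ℝ) ^ (2 ^ j) * (1/2) ^ j) y) C P := by
    apply Integrable.integrableOn
    apply Integrable.const_mul
    exact (integrable_const _).indicator (meas_A _ _)
  have hae : ∀ᵐ y ∂P, F (T^[n] y) < ⊤ :=
    (mp_T.iterate n).quasiMeasurePreserving.ae F_lt_top
  have hfnn : ∀ y, 0 ≤ f y := fun y => ENNReal.toReal_nonneg
  have hle : ∫ y in C, ((n + 1 : ℕ) : ℝ)⁻¹ *
      (A n (2 ^ j)).indicator (fun _ => (2:ℝ) ^ (2 ^ j) * (1/2) ^ j) y ∂P ≤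
      ∫ y in C, ((n + 1 : ℕ) : ℝ)⁻¹ * ∑ i ∈ Finset.range (n+1), f (T^[i] y) ∂P := by
    apply integral_mono_ae hint3 hint2
    filter_upwards [ae_restrict_of_ae hae] with y hy
    apply mul_le_mul_of_nonneg_left _ (by positivity)
    have h1 := f_ge hy j
    have h2 : (A n (2 ^ j)).indicator (fun _ => (2:ℝ) ^ (2 ^ j) * (1/2) ^ j) y =
        (A 0 (2 ^ j)).indicator (fun _ => (2:ℝ) ^ (2 ^ j) * (1/2) ^ j) (T^[n] y) := by
      by_cases hA : y ∈ A n (2 ^ j)
      · rw [Set.indicator_of_mem hA, Set.indicator_of_mem ((T_iter_mem n _ y).2 hA)]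
      · rw [Set.indicator_of_notMem hA, Set.indicator_of_notMem (fun h => hA ((T_iter_mem n _ y).1 h))]
    rw [h2]
    refine le_trans h1 ?_
    exact Finset.single_le_sum (f := fun i => f (T^[i] y)) (fun i _ => hfnn _) (Finset.mem_range.2 (Nat.lt_succ_self n))
  have hval : ∫ y in C, ((n + 1 : ℕ) : ℝ)⁻¹ *
      (A n (2 ^ j)).indicator (fun _ => (2:ℝ) ^ (2 ^ j) * (1/2) ^ j) y ∂P =
      ((n + 1 : ℕ) : ℝ)⁻¹ * (P.real (A n (2 ^ j) ∩ C) * ((2:ℝ) ^ (2 ^ j) * (1/2) ^ j)) := by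
    rw [integral_const_mul, integral_indicator (meas_A _ _), setIntegral_const, smul_eq_mul]
    congr 2
    rw [Measure.real, Measure.real, Measure.restrict_apply' (measurableSet_cyl _ _)]
  rw [hPC]
  have hlow := lower_measure n m j hmj x hx
  rw [← hN, ← hC] at hlow
  calc (2:ℝ) ^ m / 2 ^ j / (n + 1) = ((1/2 : ℝ) ^ N)⁻¹ * (((n + 1 : ℕ) : ℝ)⁻¹ * ((1/2 : ℝ) ^ (N + (2 ^ j - m)) * ((2:ℝ) ^ (2 ^ j) * (1/2) ^ j))) := by
        have h3 : (2:ℝ) ^ (2 ^ j) = 2 ^ (2 ^ j - m) * 2 ^ m := by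
          rw [← pow_add]; congr 1; omega
        rw [h3, pow_add]
        simp only [one_div, inv_pow, inv_inv]
        push_cast
        field_simp
    _ ≤ ((1/2 : ℝ) ^ N)⁻¹ * (((n + 1 : ℕ) : ℝ)⁻¹ * (P.real (A n (2 ^ j) ∩ C) * ((2:ℝ) ^ (2 ^ j) * (1/2) ^ j))) := by
        gcongr
    _ = ((1/2 : ℝ) ^ N)⁻¹ * ∫ y in C, ((n + 1 : ℕ) : ℝ)⁻¹ *
      (A n (2 ^ j)).indicator (fun _ => (2:ℝ) ^ (2 ^ j) * (1/2) ^ j) y ∂P := by rw [hval]
    _ ≤ _ := by gcongr

/-! ### Borel–Cantelli -/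

lemma indep_A (m : ℕ → ℕ) : ProbabilityTheory.iIndepSet (fun n => A n (m n)) P := by
  classical
  rw [ProbabilityTheory.iIndepSet_iff_meas_biInter (fun n => meas_A _ _)]
  intro s
  have h1 : (⋂ n ∈ s, A n (m n)) = cyl (s.biUnion (fun n => S n (m n))) (fun _ => true) := by
    ext x
    simp only [Set.mem_iInter, A, cyl, Set.mem_ofPred_eq, Finset.mem_biUnion]
    constructor
    · rintro h i ⟨n, hn, hi⟩; exact h n hn i hi
    · intro h n hn i hi; exact h i ⟨n, hn, hi⟩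
  rw [h1, P_cyl, Finset.card_biUnion]
  · simp_rw [P_A, card_S]
    rw [Finset.prod_pow_eq_pow_sum]
  · intro n _ n' _ hne
    rw [Function.onFun, Finset.disjoint_left]
    intro i hi hi'
    rw [S, Finset.mem_image] at hi hi'
    obtain ⟨a, _, ha⟩ := hi
    obtain ⟨b, _, hb⟩ := hi'
    rw [← hb] at ha
    have := congrArg Nat.unpair ha
    simp at this
    exact hne this.1

/-- auxiliary exponent -/
def jj (b a : ℕ) : ℕ := Nat.log 2 (a + b + 1) + 2

/-- auxiliary length -/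
def mm (b n : ℕ) : ℕ := Nat.log 2 n + b + 1 + jj b (Nat.log 2 n)

lemma mm_le (b n : ℕ) : mm b n ≤ 2 ^ (jj b (Nat.log 2 n)) := by
  unfold mm jj
  set s := Nat.log 2 n + b + 1 with hs
  have h1 : s < 2 ^ (Nat.log 2 s + 1) := Nat.lt_pow_succ_log_self (by norm_num) s
  have h2 : Nat.log 2 s + 2 ≤ 2 ^ (Nat.log 2 s + 1) := by
    have : Nat.log 2 s + 1 < 2 ^ (Nat.log 2 s + 1) := Nat.lt_two_pow_self
    omega
  calc s + (Nat.log 2 s + 2) ≤ 2 ^ (Nat.log 2 s + 1) + 2 ^ (Nat.log 2 s + 1) := by omega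
    _ = 2 ^ (Nat.log 2 s + 2) := by ring

lemma tsum_top (b : ℕ) : ∑' n, P (A n (mm b n)) = ⊤ := by
  -- restrict to blocks
  let e : (Σ a : ℕ, Fin (2 ^ a)) → ℕ := fun p => 2 ^ p.1 + p.2.1
  have hlog : ∀ p : (Σ a : ℕ, Fin (2 ^ a)), Nat.log 2 (e p) = p.1 := by
    rintro ⟨a, i, hi⟩
    simp only [e]
    rw [Nat.log_eq_iff (Or.inr ⟨by norm_num, by positivity⟩)]
    constructor
    · omega
    · rw [pow_succ]; omega
  have hinj : Function.Injective e := by
    rintro ⟨a, i⟩ ⟨a', i'⟩ h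
    have h1 := hlog ⟨a, i⟩
    have h2 := hlog ⟨a', i'⟩
    rw [h] at h1
    rw [h1] at h2
    simp only at h2
    subst h2
    simp only [e] at h
    have : i = i' := by apply Fin.ext; omega
    rw [this]
  have h1 : ∑' p, P (A (e p) (mm b (e p))) ≤ ∑' n, P (A n (mm b n)) :=
    ENNReal.tsum_comp_le_tsum_of_injective hinj (fun n => P (A n (mm b n)))
  have h2 : ∑' p, P (A (e p) (mm b (e p))) = ∑' a : ℕ, (2⁻¹ : ℝ≥0∞) ^ (b + 1 + jj b a) := by
    rw [ENNReal.tsum_sigma']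
    congr 1
    ext a
    rw [tsum_fintype]
    simp_rw [P_A, mm, hlog]
    rw [Finset.sum_const, Finset.card_univ, Fintype.card_fin, nsmul_eq_mul]
    push_cast
    rw [show a + b + 1 + jj b a = a + (b + 1 + jj b a) by ring, pow_add _ a, ← mul_assoc,
      two_pow_mul_inv, one_mul]
  rw [← top_le_iff]
  refine le_trans ?_ h1
  rw [h2, top_le_iff]
  by_contra hne
  have hs := ENNReal.summable_toReal hne
  have hterm : ∀ a : ℕ, ((1/2:ℝ)) ^ (b + 3) * ((a + (b + 1) : ℕ) : ℝ)⁻¹ ≤ ((2⁻¹ : ℝ≥0∞) ^ (b + 1 + jj b a)).toReal := by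
    intro a
    have hl : 2 ^ (Nat.log 2 (a + b + 1)) ≤ a + b + 1 := Nat.pow_log_le_self 2 (by omega)
    have hl' : (2:ℝ) ^ (Nat.log 2 (a + b + 1)) ≤ ((a + (b + 1) : ℕ) : ℝ) := by
      exact_mod_cast hl
    rw [ENNReal.toReal_pow, ENNReal.toReal_inv, jj]
    have : ((2 : ℝ≥0∞).toReal)⁻¹ = (1/2 : ℝ) := by norm_num
    rw [this, show b + 1 + (Nat.log 2 (a + b + 1) + 2) = (b + 3) + Nat.log 2 (a + b + 1) by ring, pow_add _ (b+3)]
    apply mul_le_mul_of_nonneg_left _ (by positivity)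
    rw [one_div, inv_pow]
    exact inv_anti₀ (by positivity) hl'
  have hs2 : Summable (fun a : ℕ => ((1/2:ℝ)) ^ (b + 3) * ((a + (b + 1) : ℕ) : ℝ)⁻¹) :=
    Summable.of_nonneg_of_le (fun a => by positivity) hterm hs
  rw [summable_mul_left_iff (by positivity)] at hs2
  exact Real.not_summable_natCast_inv ((summable_nat_add_iff (f := fun n : ℕ => (n : ℝ)⁻¹) (b+1)).1 hs2)

lemma ae_frequently_mem (b : ℕ) : ∀ᵐ x ∂P, ∃ᶠ n in atTop, x ∈ A n (mm b n) := by
  have h := ProbabilityTheory.measure_limsup_eq_one (fun n => meas_A n (mm b n)) (indep_A (mm b)) (tsum_top b)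
  have hms : MeasurableSet (limsup (fun n => A n (mm b n)) atTop) :=
    MeasurableSet.measurableSet_limsup (fun n => meas_A n (mm b n))
  have h2 : ∀ᵐ x ∂P, x ∈ limsup (fun n => A n (mm b n)) atTop := by
    rw [ae_iff]
    exact (prob_compl_eq_zero_iff hms).2 h
  filter_upwards [h2] with x hx
  rwa [Filter.mem_limsup_iff_frequently_mem] at hx

lemma ae_frequently_U : ∀ᵐ x ∂P, ∀ M : ℝ, ∃ᶠ p in 𝓝[>] (0:ℝ) ×ˢ (atTop : Filter ℕ), M ≤ U P T f p.1 p.2 x := by
  have h : ∀ᵐ x ∂P, ∀ b : ℕ, ∃ᶠ n in atTop, x ∈ A n (mm b n) := ae_all_iff.2 ae_frequently_mem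
  filter_upwards [h] with x hx M
  obtain ⟨b, hb⟩ : ∃ b : ℕ, M ≤ 2 ^ b := by
    obtain ⟨b, hb⟩ := pow_unbounded_of_one_lt M (by norm_num : (1:ℝ) < 2)
    exact ⟨b, hb.le⟩
  have hten : Tendsto (fun n : ℕ => ((2 * (1/2) ^ (Nat.pair n (mm b n)) : ℝ), n + 1)) atTop
      (𝓝[>] (0:ℝ) ×ˢ (atTop : Filter ℕ)) := by
    apply Tendsto.prodMk
    · rw [tendsto_nhdsWithin_iff]
      constructor
      · have h1 : Tendsto (fun n : ℕ => Nat.pair n (mm b n)) atTop atTop :=
          tendsto_atTop_mono (fun n => Nat.left_le_pair n _) tendsto_id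
        have h2 : Tendsto (fun n : ℕ => (1/2 : ℝ) ^ n) atTop (𝓝 0) :=
          tendsto_pow_atTop_nhds_zero_of_lt_one (by norm_num) (by norm_num)
        simpa using (h2.comp h1).const_mul 2
      · exact Eventually.of_forall (fun n => by simp only [Set.mem_Ioi]; positivity)
    · exact tendsto_add_atTop_nat 1
  refine hten.frequently (((hx b).and_eventually (eventually_gt_atTop 0)).mono ?_)
  rintro n ⟨hn, hpos⟩
  have h1 := U_ge n (mm b n) (jj b (Nat.log 2 n)) (mm_le b n) x hn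
  refine le_trans hb (le_trans ?_ h1)
  have hn1 : n + 1 ≤ 2 ^ (Nat.log 2 n + 1) := Nat.lt_pow_succ_log_self (by norm_num) n
  have hn2 : (n : ℝ) + 1 ≤ 2 ^ (Nat.log 2 n + 1) := by exact_mod_cast hn1
  rw [mm, div_div, le_div_iff₀ (by positivity), pow_add]
  rw [mul_comm (2 ^ (Nat.log 2 n + b + 1)), mul_left_comm]
  apply mul_le_mul_of_nonneg_left _ (by positivity)
  calc (2:ℝ) ^ b * (n + 1) ≤ 2 ^ b * 2 ^ (Nat.log 2 n + 1) := by gcongr
    _ = 2 ^ (Nat.log 2 n + b + 1) := by rw [← pow_add]; congr 1; ring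

lemma continuous_T : Continuous T := by
  unfold T
  fun_prop

lemma not_jointLimit_of_frequently {u : ℝ → ℕ → ℝ}
    (h : ∀ M : ℝ, ∀ r₀ : ℝ, 0 < r₀ → ∀ K : ℕ, ∃ r : ℝ, 0 < r ∧ r < r₀ ∧ ∃ k : ℕ, K ≤ k ∧ M ≤ u r k)
    (L : ℝ) : ¬ JointLimit u L := by
  intro hL
  obtain ⟨r₀, hr₀, K, hK⟩ := hL 1 one_pos
  obtain ⟨r, hr, hr', k, hk, hM⟩ := h (L + 1) r₀ hr₀ K
  have h1 := hK r hr hr' k hk
  rw [abs_lt] at h1
  linarith [h1.2]

lemma ae_unbounded : ∀ᵐ x ∂P, ∀ M : ℝ, ∀ r₀ : ℝ, 0 < r₀ → ∀ K : ℕ,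
    ∃ r : ℝ, 0 < r ∧ r < r₀ ∧ ∃ k : ℕ, K ≤ k ∧ M ≤ U P T f r k x := by
  filter_upwards [ae_frequently_U] with x hx M r₀ hr₀ K
  have hev : ∀ᶠ p in 𝓝[>] (0:ℝ) ×ˢ (atTop : Filter ℕ), (0 < p.1 ∧ p.1 < r₀) ∧ K ≤ p.2 := by
    have h1 : ∀ᶠ r in 𝓝[>] (0:ℝ), 0 < r ∧ r < r₀ := Ioo_mem_nhdsGT hr₀
    exact h1.prod_mk (eventually_ge_atTop K)
  obtain ⟨p, hp, ⟨h1, h2⟩, h3⟩ := ((hx M).and_eventually hev).exists
  exact ⟨p.1, h1, h2, p.2, h3, hp⟩

/-- **Negative answer to Q1.** There are a compact metric space `X`, a Borel probability measure `μ`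
with the Hardy–Littlewood property, a continuous `μ`-preserving map `T` and `f ∈ L¹(μ)` such that for
`μ`-almost every `x` the averages `U_{r,k} f (x)` are unbounded above as `r ↘ 0`, `k → ∞`; so the
joint limit exists for almost no `x`, and in particular the set of `x` at which it is not
`f^*(x) = E[f | invariant sets](x)` has positive measure. -/
theorem result :
    ∃ (X : Type) (_ : MetricSpace X) (_ : CompactSpace X) (_ : MeasurableSpace X)
      (_ : BorelSpace X) (μ : Measure X) (_ : IsProbabilityMeasure μ) (T : X → X) (f : X → ℝ),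
      Continuous T ∧ MeasurePreserving T μ μ ∧ HardyLittlewood μ ∧ Integrable f μ ∧
      (∀ᵐ x ∂μ, ∀ M : ℝ, ∀ r₀ : ℝ, 0 < r₀ → ∀ K : ℕ,
        ∃ r : ℝ, 0 < r ∧ r < r₀ ∧ ∃ k : ℕ, K ≤ k ∧ M ≤ U μ T f r k x) ∧
      (∀ᵐ x ∂μ, ∀ L : ℝ, ¬ JointLimit (fun r k => U μ T f r k x) L) ∧
      0 < μ {x | ¬ JointLimit (fun r k => U μ T f r k x)
        ((μ[f | MeasurableSpace.invariants T]) x)} := by
  have h2 : ∀ᵐ x ∂P, ∀ L : ℝ, ¬ JointLimit (fun r k => U P T f r k x) L := by
    filter_upwards [ae_unbounded] with x hx L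
    exact not_jointLimit_of_frequently hx L
  refine ⟨ℕ → Bool, PiNat.metricSpace, inferInstance, inferInstance, inferInstance, P,
    inferInstance, T, f, continuous_T, mp_T, hardyLittlewood_P, int_f, ae_unbounded, h2, ?_⟩
  have h3 : ∀ᵐ x ∂P, x ∈ {x | ¬ JointLimit (fun r k => U P T f r k x)
      ((P[f | MeasurableSpace.invariants T]) x)} := by
    filter_upwards [h2] with x hx
    exact hx _
  rw [pos_iff_ne_zero]
  intro h0
  have h4 := measure_eq_zero_iff_ae_notMem.1 h0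
  have h5 : ∀ᵐ x ∂P, False := by
    filter_upwards [h3, h4] with x hx hx'
    exact hx' hx
  rw [ae_iff] at h5
  simp at h5

end Pool.Agent.Results.MP_135240_an.JointLimitFails
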